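import Mathlib

/-!
# The convex hull of a compact set in a finite-dimensional space is compact
-/

set_option autoImplicit false

namespace Pool.Agent.K9h73.CV

/-- a convex combination of at most `d + 1` points is a combination indexed by `Fin (d + 1)` -/
theorem mem_hull {E : Type} [NormedAddCommGroup E] [NormedSpace ℝ E] [FiniteDimensional ℝ E]
    {s : Set E} {x : E} (hx : x ∈ convexHull ℝ s) :
    ∃ (w : Fin (Module.finrank ℝ E + 1) → ℝ) (z : Fin (Module.finrank ℝ E + 1) → E),
      (∀ i, 0 ≤ w i) ∧ ∑ i, w i = 1 ∧ (∀ i, z i ∈ s) ∧ ∑ i, w i • z i = x := by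
  classical
  obtain ⟨ι, hι, z, w, hz, haff, hw, hsum, hx⟩ := eq_pos_convex_span_of_mem_convexHull hx
  have hcard := haff.card_le_finrank_succ
  have hcard' : Fintype.card ι ≤ Module.finrank ℝ E + 1 :=
    hcard.trans (Nat.succ_le_succ (Submodule.finrank_le _))
  obtain ⟨f⟩ : Nonempty (ι ↪ Fin (Module.finrank ℝ E + 1)) := by
    apply Function.Embedding.nonempty_of_card_le
    rw [Fintype.card_fin]
    exact hcard'
  have hne : Nonempty ι := by
    by_contra h
    rw [not_nonempty_iff] at h
    rw [Finset.univ_eq_empty, Finset.sum_empty] at hsum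
    exact zero_ne_one hsum
  obtain ⟨i₀⟩ := hne
  refine ⟨fun j => if h : ∃ i, f i = j then w h.choose else 0,
    fun j => if h : ∃ i, f i = j then z h.choose else z i₀, ?_, ?_, ?_, ?_⟩
  · intro j
    dsimp only
    split_ifs with h
    · exact (hw _).le
    · exact le_refl 0
  · rw [← hsum]
    have h1 : ∀ i : ι, (fun j => if h : ∃ i, f i = j then w h.choose else 0) (f i) = w i := by
      intro i
      have h : ∃ i', f i' = f i := ⟨i, rfl⟩
      dsimp only
      rw [dif_pos h, f.injective h.choose_spec]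
    rw [← Finset.sum_subset (Finset.subset_univ (Finset.univ.map f))]
    · rw [Finset.sum_map]
      exact Finset.sum_congr rfl fun i _ => h1 i
    · intro j _ hj
      rw [dif_neg]
      rintro ⟨i, rfl⟩
      exact hj (Finset.mem_map_of_mem f (Finset.mem_univ i))
  · intro j
    dsimp only
    split_ifs with h
    · exact hz ⟨_, rfl⟩
    · exact hz ⟨_, rfl⟩
  · rw [← hx]
    rw [← Finset.sum_subset (Finset.subset_univ (Finset.univ.map f))]
    · rw [Finset.sum_map]
      refine Finset.sum_congr rfl fun i _ => ?_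
      have h : ∃ i', f i' = f i := ⟨i, rfl⟩
      dsimp only
      rw [dif_pos h, dif_pos h, f.injective h.choose_spec]
    · intro j _ hj
      have h : ¬ ∃ i, f i = j := by
        rintro ⟨i, rfl⟩
        exact hj (Finset.mem_map_of_mem f (Finset.mem_univ i))
      dsimp only
      rw [dif_neg h, zero_smul]

theorem compact_hull {E : Type} [NormedAddCommGroup E] [NormedSpace ℝ E] [FiniteDimensional ℝ E]
    {s : Set E} (hs : IsCompact s) : IsCompact (convexHull ℝ s) := by
  classical
  set n := Module.finrank ℝ E + 1 with hn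
  let g : (Fin n → ℝ) × (Fin n → E) → E := fun p => ∑ i, p.1 i • p.2 i
  have hg : Continuous g := by
    apply continuous_finsetSum
    intro i _
    exact ((continuous_apply i).comp continuous_fst).smul ((continuous_apply i).comp continuous_snd)
  have hK : IsCompact (stdSimplex ℝ (Fin n) ×ˢ (Set.univ.pi fun _ : Fin n => s)) :=
    (isCompact_stdSimplex ℝ (Fin n)).prod (isCompact_univ_pi fun _ => hs)
  have h : convexHull ℝ s = g '' (stdSimplex ℝ (Fin n) ×ˢ (Set.univ.pi fun _ : Fin n => s)) := by
    apply Set.Subset.antisymm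
    · intro x hx
      obtain ⟨w, z, h1, h2, h3, h4⟩ := mem_hull hx
      exact ⟨(w, z), ⟨⟨h1, h2⟩, fun i _ => h3 i⟩, h4⟩
    · rintro _ ⟨⟨w, z⟩, ⟨⟨h1, h2⟩, h3⟩, rfl⟩
      have hc : Convex ℝ (convexHull ℝ s) := convex_convexHull ℝ s
      exact hc.sum_mem (fun i _ => h1 i) h2 fun i _ => subset_convexHull ℝ s (h3 i (Set.mem_univ i))
  rw [h]
  exact hK.image hg

end Pool.Agent.K9h73.CV
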